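import Pool.Agent.Results.MP_2550b6_an.Counterexample

/-!
# Stability of the counterexample to the Gamma-interpolation conjecture

Helper file for `MP_2550b6_an.OpenSet`.
-/

set_option autoImplicit false

open Complex Metric

namespace Pool.Agent.Y958.GI

open Pool.Agent.Results.MP_2550b6_an.Counterexample Pool.Agent.H93R3.Gam

theorem gam_of_roots {s p : ℂ} (h : ∀ z : ℂ, z ^ 2 - s * z + p = 0 → ‖z‖ ≤ 1) :
    (s, p) ∈ Gam := by
  obtain ⟨t, ht⟩ := IsAlgClosed.exists_pow_nat_eq (s ^ 2 - 4 * p) (n := 2) (by norm_num)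
  refine ⟨(s + t) / 2, (s - t) / 2, h _ ?_, h _ ?_, ?_⟩
  · linear_combination (1 / 4 : ℂ) * ht
  · linear_combination (1 / 4 : ℂ) * ht
  · rw [Prod.mk.injEq]
    constructor
    · ring
    · linear_combination (1 / 4 : ℂ) * ht

theorem gam_small {s p : ℂ} (h : ‖s‖ + ‖p‖ ≤ 1) : (s, p) ∈ Gam := by
  refine gam_of_roots fun z hz => ?_
  by_contra hcon
  push Not at hcon
  have h1 : z ^ 2 = s * z - p := by linear_combination hz
  have h2 : ‖z‖ ^ 2 ≤ ‖s‖ * ‖z‖ + ‖p‖ := by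
    rw [← norm_pow, h1]
    exact (norm_sub_le _ _).trans (by rw [norm_mul])
  nlinarith [norm_nonneg s, norm_nonneg p]

/-- a small perturbation of a point of the shrunk symmetrised bidisc -/
theorem gam_shrink {r : ℝ} (hr0 : 0 < r) (hr1 : r < 1) {s p a b : ℂ} (h : (s, p) ∈ Gam)
    (ha : ‖a‖ ≤ (1 - r) ^ 2 / 4) (hb : ‖b‖ ≤ (1 - r) ^ 2 / 4) :
    (r * s + a, r ^ 2 * p + b) ∈ Gam := by
  obtain ⟨x, y, hx, hy, hxy⟩ := h
  rw [Prod.mk.injEq] at hxy
  obtain ⟨hs, hp⟩ := hxy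
  refine gam_of_roots fun z hz => ?_
  by_contra hcon
  push Not at hcon
  have h1 : (z - r * x) * (z - r * y) = a * z - b := by
    rw [hs, hp] at hz
    linear_combination hz
  have hfac : ∀ x : ℂ, ‖x‖ ≤ 1 → (1 - r) * ‖z‖ ≤ ‖z - r * x‖ := by
    intro x hx
    have h2 := norm_sub_norm_le z (r * x)
    rw [norm_mul, Complex.norm_real, Real.norm_eq_abs, abs_of_pos hr0] at h2
    nlinarith
  have h2 : ‖a * z - b‖ ≤ ‖a‖ * ‖z‖ + ‖b‖ := (norm_sub_le _ _).trans (by rw [norm_mul])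
  rw [← h1, norm_mul] at h2
  have h3 := mul_le_mul (hfac x hx) (hfac y hy) (by
    have : 0 < 1 - r := by linarith
    positivity) (norm_nonneg _)
  have h4 : (0 : ℝ) < (1 - r) ^ 2 := by
    have : 0 < 1 - r := by linarith
    positivity
  nlinarith [mul_pos h4 (by linarith : (0 : ℝ) < ‖z‖ - 1), norm_nonneg a, norm_nonneg b,
    mul_le_mul_of_nonneg_right ha (norm_nonneg z)]

theorem gam_bound {s p : ℂ} (h : (s, p) ∈ Gam) : ‖s‖ ≤ 2 ∧ ‖p‖ ≤ 2 := by
  obtain ⟨x, y, hx, hy, hxy⟩ := h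
  rw [Prod.mk.injEq] at hxy
  obtain ⟨hs, hp⟩ := hxy
  constructor
  · rw [hs]
    exact (norm_add_le _ _).trans (by linarith)
  · rw [hp, norm_mul]
    nlinarith [norm_nonneg x, norm_nonneg y]

/-- Lipschitz bound near a point -/
theorem lip {f : ℂ → ℂ} {M ρ : ℝ} {c z : ℂ} (hf : DifferentiableOn ℂ f (ball 0 1))
    (hM : ∀ x ∈ ball (0 : ℂ) 1, ‖f x‖ ≤ M) (hρ : 0 < ρ) (hc : ‖c‖ + ρ ≤ 1) (hz : ‖z - c‖ < ρ) :
    ‖f z - f c‖ ≤ 2 * M / ρ * ‖z - c‖ := by
  have hsub : ball c ρ ⊆ ball (0 : ℂ) 1 := by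
    intro x hx
    rw [mem_ball, dist_eq_norm] at hx
    rw [mem_ball_zero_iff]
    have h1 : ‖x‖ ≤ ‖x - c‖ + ‖c‖ := by
      have := norm_add_le (x - c) c
      rwa [sub_add_cancel] at this
    linarith
  have hc' : c ∈ ball (0 : ℂ) 1 := hsub (mem_ball_self hρ)
  have h1 := Complex.dist_le_div_mul_dist_of_mapsTo_ball (f := f) (c := c) (z := z) (R₁ := ρ)
    (R₂ := 2 * M) (hf.mono hsub) (fun x hx => by
      rw [mem_closedBall, dist_eq_norm]
      have := norm_sub_le (f x) (f c)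
      linarith [hM x (hsub hx), hM c hc']) (by rwa [mem_ball, dist_eq_norm])
  rwa [dist_eq_norm, dist_eq_norm] at h1

/-- interpolation at two points by a Schur function, with room -/
theorem schur2' (u v : ℝ) (x y : ℂ) (hu0 : 1 ≤ u) (hu1 : u ≤ 101 / 100) (hv0 : 1 ≤ v)
    (hv1 : v ≤ 101 / 100) (hx : ‖x‖ ≤ 1) (hy : ‖y‖ ≤ 1) :
    ∃ k : ℂ → ℂ, DifferentiableOn ℂ k (ball 0 1) ∧
      (∀ z ∈ ball (0 : ℂ) 1, ‖k z‖ ≤ 99 / 100) ∧
      k (1 / 2) = 6 * u / (10 - 3 * x) ∧ k (-(1 / 2)) = 6 * v / (10 - 3 * y) := by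
  obtain ⟨A, hA⟩ : ∃ A : ℂ, Aval u x = A := ⟨_, rfl⟩
  obtain ⟨A', hA'⟩ : ∃ A' : ℂ, Aval v y = A' := ⟨_, rfl⟩
  have nA : ‖A‖ ≤ 2 / 5 := hA ▸ Aval_le u x hu0 hu1 hx
  have nA' : ‖A'‖ ≤ 2 / 5 := hA' ▸ Aval_le v y hv0 hv1 hy
  set kt : ℂ → ℂ := fun z => (A + A') / 2 + (A - A') * z with hkt
  have dkt : Differentiable ℂ kt :=
    (differentiable_const _).add (differentiable_id.const_mul _)
  have nkt : ∀ z ∈ ball (0 : ℂ) 1, ‖kt z‖ ≤ 9 / 10 := by
    intro z hz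
    have hz1 : ‖z‖ < 1 := by simpa using hz
    have h1 : ‖kt z‖ ≤ ‖A + A'‖ / 2 + ‖A - A'‖ := by
      refine (norm_add_le _ _).trans ?_
      rw [norm_div, norm_mul]
      have : ‖A - A'‖ * ‖z‖ ≤ ‖A - A'‖ := by
        nlinarith [norm_nonneg (A - A')]
      have h2 : ‖(2 : ℂ)‖ = 2 := by simp
      rw [h2]
      linarith
    have hpar := parallelogram_law_with_norm ℝ A A'
    have p0 := norm_nonneg (A + A')
    have m0 := norm_nonneg (A - A')
    have a0 := norm_nonneg A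
    have a0' := norm_nonneg A'
    have hs : ‖A + A'‖ ^ 2 + ‖A - A'‖ ^ 2 ≤ 16 / 25 := by nlinarith
    have h3 : (‖A + A'‖ / 2 + ‖A - A'‖) ^ 2 ≤ 4 / 5 := by
      nlinarith [sq_nonneg (‖A + A'‖ - ‖A - A'‖ / 2)]
    nlinarith
  have hne : ∀ z ∈ ball (0 : ℂ) 1, 7 + 5 * kt z ≠ 0 := by
    intro z hz h
    have h1 : (5 : ℂ) * kt z = -7 := by linear_combination h
    have h2 : ‖(5 : ℂ) * kt z‖ = 7 := by rw [h1]; simp
    rw [norm_mul] at h2
    have h3 : ‖(5 : ℂ)‖ = 5 := by simp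
    rw [h3] at h2
    have := nkt z hz
    linarith
  refine ⟨fun z => (7 * kt z + 5) / (7 + 5 * kt z), ?_, ?_, ?_, ?_⟩
  · exact ((dkt.differentiableOn.const_mul _).add (differentiableOn_const _)).div
      ((differentiableOn_const _).add (dkt.differentiableOn.const_mul _)) hne
  · intro z hz
    show ‖(7 * kt z + 5) / (7 + 5 * kt z)‖ ≤ 99 / 100
    rw [norm_div, div_le_iff₀ (norm_pos_iff.mpr (hne z hz))]
    apply norm_le_of_sq _ (by norm_num)
    have h1 : (kt z).re * (kt z).re + (kt z).im * (kt z).im ≤ 81 / 100 := by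
      have h := Complex.sq_norm (kt z)
      rw [Complex.normSq_apply] at h
      rw [← h]
      nlinarith [norm_nonneg (kt z), nkt z hz]
    have h2 : -(9 / 10) ≤ (kt z).re :=
      (abs_le.mp ((Complex.abs_re_le_norm _).trans (nkt z hz))).1
    generalize kt z = w at *
    rw [Complex.sq_norm, Complex.sq_norm, Complex.normSq_apply, Complex.normSq_apply]
    simp only [Complex.add_re, Complex.add_im, Complex.mul_re,
      Complex.mul_im, Complex.re_ofNat, Complex.im_ofNat]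
    nlinarith
  · have e : kt (1 / 2) = A := by rw [hkt]; ring
    show (7 * kt (1 / 2) + 5) / (7 + 5 * kt (1 / 2)) = _
    have hd := hne (1 / 2) (by
      rw [mem_ball_zero_iff]
      norm_num)
    rw [e] at hd ⊢
    have hden := den_ne u x hu1 hx
    have hx3 : (10 - 3 * x : ℂ) ≠ 0 := by
      intro h
      have h1 := congrArg Complex.re h
      simp only [Complex.sub_re, Complex.mul_re, Complex.re_ofNat, Complex.im_ofNat,
        Complex.zero_re] at h1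
      have h2 := (abs_le.mp ((Complex.abs_re_le_norm x).trans hx)).2
      linarith
    rw [div_eq_div_iff hd hx3]
    have hAm : A * (70 - 21 * x - 30 * u) = 42 * u - 50 + 15 * x := by
      rw [← hA, Aval, div_mul_cancel₀ _ hden]
    linear_combination hAm
  · have e : kt (-(1 / 2)) = A' := by rw [hkt]; ring
    show (7 * kt (-(1 / 2)) + 5) / (7 + 5 * kt (-(1 / 2))) = _
    have hd := hne (-(1 / 2)) (by
      rw [mem_ball_zero_iff, norm_neg]
      norm_num)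
    rw [e] at hd ⊢
    have hden := den_ne v y hv1 hy
    have hx3 : (10 - 3 * y : ℂ) ≠ 0 := by
      intro h
      have h1 := congrArg Complex.re h
      simp only [Complex.sub_re, Complex.mul_re, Complex.re_ofNat, Complex.im_ofNat,
        Complex.zero_re] at h1
      have h2 := (abs_le.mp ((Complex.abs_re_le_norm y).trans hy)).2
      linarith
    rw [div_eq_div_iff hd hx3]
    have hAm : A' * (70 - 21 * y - 30 * v) = 42 * v - 50 + 15 * y := by
      rw [← hA', Aval, div_mul_cancel₀ _ hden]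
    linear_combination hAm

/-- the interpolant, with room -/
theorem interp' (n : ℕ) (hn : 3 ≤ n) (x y : ℂ) (hx : ‖x‖ ≤ 1) (hy : ‖y‖ ≤ 1) :
    ∃ g : ℂ → ℂ, DifferentiableOn ℂ g (ball 0 1) ∧
      (∀ z ∈ ball (0 : ℂ) 1, ‖g z‖ ≤ 99 / 100) ∧
      g 0 = 0 ∧ (∀ j : Fin n, g (mu n j : ℂ) = 0) ∧ g (1 / 2) = -3 / (10 - 3 * x) ∧
      g (-(1 / 2)) = 3 / (10 - 3 * y) := by
  obtain ⟨u, hu0, hu1, hu⟩ := BB_real n hn (1 / 2) (Or.inl rfl)
  obtain ⟨v, hv0, hv1, hv⟩ := BB_real n hn (-(1 / 2)) (Or.inr rfl)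
  obtain ⟨k, dk, nk, kp, km⟩ := schur2' u v x y hu0 hu1 hv0 hv1 hx hy
  refine ⟨fun z => -z * BB n z * k z, ?_, ?_, ?_, ?_, ?_, ?_⟩
  · exact (differentiableOn_id.neg.mul (BB_diff n hn)).mul dk
  · intro z hz
    have hz1 : ‖z‖ < 1 := by simpa using hz
    show ‖-z * BB n z * k z‖ ≤ 99 / 100
    rw [norm_mul, norm_mul, norm_neg]
    have h1 := BB_le n hn z hz1
    have h2 := nk z hz
    have h3 : ‖z‖ * ‖BB n z‖ ≤ 1 := mul_le_one₀ hz1.le (norm_nonneg _) h1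
    calc ‖z‖ * ‖BB n z‖ * ‖k z‖ ≤ 1 * (99 / 100) :=
          mul_le_mul h3 h2 (norm_nonneg _) zero_le_one
      _ = 99 / 100 := one_mul _
  · simp
  · intro j
    show -(mu n j : ℂ) * BB n (mu n j : ℂ) * k (mu n j : ℂ) = 0
    rw [BB_zero]
    ring
  · show -(1 / 2) * BB n (1 / 2) * k (1 / 2) = _
    rw [kp]
    push_cast at hu
    linear_combination (-3 / (10 - 3 * x)) * hu
  · show -(-(1 / 2)) * BB n (-(1 / 2)) * k (-(1 / 2)) = _
    rw [km]
    push_cast at hv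
    linear_combination (3 / (10 - 3 * y)) * hv

/-- the values of the Nevanlinna-Pick problem -/
noncomputable def wv (υ s p : ℂ) : ℂ := (2 * υ * p - s) / (2 - υ * s)

theorem wv_den {υ s : ℂ} (hυ : ‖υ‖ ≤ 1) (hs : ‖s‖ ≤ 1) : 1 ≤ ‖2 - υ * s‖ := by
  have h1 := norm_sub_norm_le (2 : ℂ) (υ * s)
  rw [norm_mul] at h1
  have h2 : ‖(2 : ℂ)‖ = 2 := by simp
  rw [h2] at h1
  nlinarith [norm_nonneg υ, norm_nonneg s]

theorem wv_close {υ s p s' p' : ℂ} {δ : ℝ} (hυ : ‖υ‖ ≤ 1) (hs : ‖s‖ ≤ 1) (hs' : ‖s'‖ ≤ 1)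
    (hp : ‖p‖ ≤ 1) (h1 : ‖s' - s‖ ≤ δ) (h2 : ‖p' - p‖ ≤ δ) :
    ‖wv υ s' p' - wv υ s p‖ ≤ 10 * δ := by
  have d1 := wv_den hυ hs
  have d2 := wv_den hυ hs'
  have n1 : (2 - υ * s) ≠ 0 := by
    intro h; rw [h, norm_zero] at d1; linarith
  have n2 : (2 - υ * s') ≠ 0 := by
    intro h; rw [h, norm_zero] at d2; linarith
  have hδ : 0 ≤ δ := (norm_nonneg _).trans h1
  have e : wv υ s' p' - wv υ s p = (4 * υ * (p' - p) - 2 * (s' - s) -
      2 * υ ^ 2 * ((p' - p) * s - p * (s' - s))) / ((2 - υ * s') * (2 - υ * s)) := by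
    rw [wv, wv, div_sub_div _ _ n2 n1]
    congr 1
    ring
  rw [e, norm_div, norm_mul]
  have hnum : ‖4 * υ * (p' - p) - 2 * (s' - s) - 2 * υ ^ 2 * ((p' - p) * s - p * (s' - s))‖ ≤
      10 * δ := by
    have a1 : ‖4 * υ * (p' - p)‖ ≤ 4 * δ := by
      rw [norm_mul, norm_mul]
      have : ‖(4 : ℂ)‖ = 4 := by simp
      rw [this]
      have := mul_le_mul hυ h2 (norm_nonneg _) zero_le_one
      nlinarith
    have a2 : ‖2 * (s' - s)‖ ≤ 2 * δ := by
      rw [norm_mul]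
      have : ‖(2 : ℂ)‖ = 2 := by simp
      rw [this]
      linarith
    have a3 : ‖2 * υ ^ 2 * ((p' - p) * s - p * (s' - s))‖ ≤ 2 * (2 * δ) := by
      rw [norm_mul, norm_mul, norm_pow]
      have t : ‖(2 : ℂ)‖ = 2 := by simp
      rw [t]
      have b1 : ‖(p' - p) * s - p * (s' - s)‖ ≤ 2 * δ := by
        refine (norm_sub_le _ _).trans ?_
        rw [norm_mul, norm_mul]
        have c1 := mul_le_mul h2 hs (norm_nonneg _) hδ
        have c2 := mul_le_mul hp h1 (norm_nonneg _) zero_le_one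
        linarith
      have b2 : ‖υ‖ ^ 2 ≤ 1 := pow_le_one₀ (norm_nonneg _) hυ
      have b3 := mul_le_mul b2 b1 (norm_nonneg _) zero_le_one
      nlinarith
    have := norm_sub_le (4 * υ * (p' - p) - 2 * (s' - s))
      (2 * υ ^ 2 * ((p' - p) * s - p * (s' - s)))
    have := norm_sub_le (4 * υ * (p' - p)) (2 * (s' - s))
    linarith
  rw [div_le_iff₀ (by positivity)]
  have hden : 1 ≤ ‖2 - υ * s'‖ * ‖2 - υ * s‖ := one_le_mul_of_one_le_of_one_le d2 d1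
  nlinarith

end Pool.Agent.Y958.GI
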