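import Pool.Agent.Y958.GI.Base

/-!
# Stability of the counterexample to the Gamma-interpolation conjecture, second part

Helper file for `MP_2550b6_an.OpenSet`.
-/

set_option autoImplicit false

open Complex Metric Filter Topology

namespace Pool.Agent.Y958.GI

open Pool.Agent.Results.MP_2550b6_an.Counterexample Pool.Agent.H93R3.Gam

/-- a correction with prescribed values at given points -/
theorem correct {n : ℕ} (lam : Fin n → ℂ) (e : Fin n → ℂ) {τ E : ℝ} (hτ : 0 < τ) (hτ1 : τ ≤ 1)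
    (hball : ∀ j, ‖lam j‖ < 1) (hsep : ∀ i j, i ≠ j → 2 * τ ≤ ‖lam j - lam i‖)
    (he : ∀ j, ‖e j‖ ≤ E) :
    ∃ h : ℂ → ℂ, Differentiable ℂ h ∧ (∀ j, h (lam j) = e j) ∧
      ∀ z ∈ ball (0 : ℂ) 1, ‖h z‖ ≤ n * (E * (1 / τ) ^ n) := by
  classical
  have hτ' : 1 ≤ 1 / τ := by
    rw [le_div_iff₀ hτ]; linarith
  refine ⟨fun z => ∑ j, e j * ∏ i ∈ Finset.univ.erase j, (z - lam i) / (lam j - lam i), ?_, ?_, ?_⟩
  · fun_prop
  · intro k
    show ∑ j, e j * ∏ i ∈ Finset.univ.erase j, (lam k - lam i) / (lam j - lam i) = e k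
    rw [Finset.sum_eq_single k]
    · rw [Finset.prod_eq_one, mul_one]
      intro i hi
      have h1 := hsep i k (Finset.ne_of_mem_erase hi)
      rw [div_self]
      intro h2
      rw [h2, norm_zero] at h1
      linarith
    · intro j _ hj
      rw [Finset.prod_eq_zero (i := k), mul_zero]
      · exact Finset.mem_erase.2 ⟨fun h => hj h.symm, Finset.mem_univ _⟩
      · rw [sub_self, zero_div]
    · intro h
      exact absurd (Finset.mem_univ _) h
  · intro z hz
    have hz1 : ‖z‖ < 1 := by simpa using hz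
    show ‖∑ j, e j * ∏ i ∈ Finset.univ.erase j, (z - lam i) / (lam j - lam i)‖ ≤ _
    have hterm : ∀ j ∈ (Finset.univ : Finset (Fin n)),
        ‖e j * ∏ i ∈ Finset.univ.erase j, (z - lam i) / (lam j - lam i)‖ ≤
          E * (1 / τ) ^ n := by
      intro j _
      rw [norm_mul, norm_prod]
      have h1 : ∏ i ∈ Finset.univ.erase j, ‖(z - lam i) / (lam j - lam i)‖ ≤
          ∏ _i ∈ Finset.univ.erase j, (1 / τ) := by
        refine Finset.prod_le_prod (fun _ _ => norm_nonneg _) fun i hi => ?_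
        have h2 := hsep i j (Finset.ne_of_mem_erase hi)
        rw [norm_div, div_le_div_iff₀ (by linarith) hτ]
        have h3 := norm_sub_le z (lam i)
        have h4 := hball i
        nlinarith
      rw [Finset.prod_const, Finset.card_erase_of_mem (Finset.mem_univ _), Finset.card_univ,
        Fintype.card_fin] at h1
      have h5 : (1 / τ) ^ (n - 1) ≤ (1 / τ) ^ n := pow_le_pow_right₀ hτ' (Nat.sub_le _ _)
      exact mul_le_mul (he j) (h1.trans h5) (Finset.prod_nonneg fun _ _ => norm_nonneg _)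
        ((norm_nonneg _).trans (he j))
    refine (norm_sum_le _ _).trans ((Finset.sum_le_sum hterm).trans (le_of_eq ?_))
    rw [Finset.sum_const, Finset.card_univ, Fintype.card_fin, nsmul_eq_mul]

/-- Data close to the base data satisfy all conditions. -/
theorem near_cond (n : ℕ) (hn : 3 ≤ n) : ∃ δ : ℝ, 0 < δ ∧ ∀ (lam : Fin n → ℂ)
    (z : Fin n → ℂ × ℂ), (∀ j, ‖lam j - node n j‖ ≤ δ) → (∀ j, ‖(z j).1 - (target n j).1‖ ≤ δ) →
    (∀ j, ‖(z j).2 - (target n j).2‖ ≤ δ) →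
    Function.Injective lam ∧ (∀ j, lam j ∈ ball (0 : ℂ) 1) ∧ (∀ j, z j ∈ Gam) ∧
      ∀ υ : ℂ → ℂ, (∀ j, ‖υ (lam j)‖ ≤ 1) → CondAt υ lam z := by
  -- the constant `τ`
  have hn0 : 0 < n := by omega
  have e1 : ∀ᶠ τ : ℝ in 𝓝[>] 0, ∀ j : Fin n, ‖node n j‖ + 2 * τ < 1 := by
    refine eventually_all.2 fun j => ?_
    have h1 : ‖node n j‖ < 1 := by simpa using node_mem n hn j
    have h2 : Tendsto (fun τ : ℝ => ‖node n j‖ + 2 * τ) (𝓝[>] 0) (𝓝 (‖node n j‖ + 2 * 0)) :=
      ((continuous_const.add (continuous_const.mul continuous_id)).tendsto 0).mono_left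
        nhdsWithin_le_nhds
    exact h2.eventually_lt_const (by simpa using h1)
  have e2 : ∀ᶠ τ : ℝ in 𝓝[>] 0, ∀ i j : Fin n, i ≠ j → 4 * τ < ‖node n j - node n i‖ := by
    refine eventually_all.2 fun i => eventually_all.2 fun j => ?_
    by_cases hij : i = j
    · exact Eventually.of_forall fun τ h => absurd hij h
    · have h1 : 0 < ‖node n j - node n i‖ := by
        rw [norm_pos_iff, sub_ne_zero]
        exact fun h => hij (node_inj n hn h).symm
      have h2 : Tendsto (fun τ : ℝ => 4 * τ) (𝓝[>] 0) (𝓝 (4 * 0)) :=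
        ((continuous_const.mul continuous_id).tendsto 0).mono_left nhdsWithin_le_nhds
      have h3 : 4 * (0 : ℝ) < ‖node n j - node n i‖ := by rw [mul_zero]; exact h1
      filter_upwards [h2.eventually_lt_const h3] with τ hτ _
      exact hτ
  obtain ⟨τ, ⟨hτ1, hτ2⟩, hτ⟩ := ((e1.and e2).and self_mem_nhdsWithin).exists
  have hτ0 : (0 : ℝ) < τ := hτ
  have hτle : τ ≤ 1 := by
    have := hτ1 ⟨0, hn0⟩
    have := norm_nonneg (node n ⟨0, hn0⟩)
    linarith
  set K : ℝ := n * ((10 + 2 / τ) * (1 / τ) ^ n) with hK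
  have hKpos : 0 < K := by
    have : (0 : ℝ) < n := by exact_mod_cast hn0
    positivity
  set δ : ℝ := min (min (τ / 2) (1 / 10)) (1 / (100 * K)) with hδ
  have hδ0 : 0 < δ := by
    refine lt_min (lt_min ?_ ?_) ?_ <;> positivity
  have hδτ : δ ≤ τ / 2 := (min_le_left _ _).trans (min_le_left _ _)
  have hδ10 : δ ≤ 1 / 10 := (min_le_left _ _).trans (min_le_right _ _)
  have hδK : K * δ ≤ 1 / 100 := by
    have h1 : δ ≤ 1 / (100 * K) := min_le_right _ _
    calc K * δ ≤ K * (1 / (100 * K)) := by gcongr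
      _ = 1 / 100 := by field_simp
  have htar1 : ∀ j, ‖(target n j).1‖ ≤ 3 / 5 := by
    intro j
    have t1 : ‖(3 / 5 : ℂ)‖ ≤ 3 / 5 := by norm_num
    unfold target
    split_ifs
    · exact t1
    · show ‖-(3 / 5 : ℂ)‖ ≤ 3 / 5
      rw [norm_neg]; exact t1
    · simp only [norm_zero]; norm_num
  have htar2 : ∀ j, (target n j).2 = 0 := by
    intro j
    unfold target
    split_ifs <;> rfl
  refine ⟨δ, hδ0, fun lam z hl hs hp => ?_⟩
  have hsep : ∀ i j, i ≠ j → 2 * τ ≤ ‖lam j - lam i‖ := by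
    intro i j hij
    have h1 := hτ2 i j hij
    have h2 : ‖node n j - node n i‖ ≤ ‖lam j - node n j‖ + ‖lam j - lam i‖ +
        ‖lam i - node n i‖ := by
      have h3 : node n j - node n i = -(lam j - node n j) + (lam j - lam i) +
          (lam i - node n i) := by ring
      rw [h3]
      refine (norm_add_le _ _).trans ?_
      have := norm_add_le (-(lam j - node n j)) (lam j - lam i)
      rw [norm_neg] at this
      linarith
    have := hl i
    have := hl j
    linarith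
  have hin : ∀ j, ‖lam j‖ < 1 := by
    intro j
    have h1 := hτ1 j
    have h2 := norm_add_le (lam j - node n j) (node n j)
    rw [sub_add_cancel] at h2
    have := hl j
    linarith
  have hs1 : ∀ j, ‖(z j).1‖ ≤ 7 / 10 := by
    intro j
    have h2 := norm_add_le ((z j).1 - (target n j).1) ((target n j).1)
    rw [sub_add_cancel] at h2
    have := hs j
    have := htar1 j
    linarith
  have hp1 : ∀ j, ‖(z j).2‖ ≤ 1 / 10 := by
    intro j
    have := hp j
    rw [htar2, sub_zero] at this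
    linarith
  refine ⟨?_, fun j => by simpa using hin j, fun j => ?_, fun υ hυ => ?_⟩
  · intro i j hij
    by_contra hne
    have := hsep i j hne
    rw [hij, sub_self, norm_zero] at this
    linarith
  · have h1 : ((z j).1, (z j).2) ∈ Gam := gam_small (by linarith [hs1 j, hp1 j])
    simpa using h1
  · obtain ⟨g, dg, ng, g0, gm, gp, gn⟩ := interp' n hn (υ (lam ⟨1, by omega⟩))
      (-υ (lam ⟨2, by omega⟩)) (hυ _) (by rw [norm_neg]; exact hυ _)
    have hbase : ∀ j, g (node n j) = wv (υ (lam j)) (target n j).1 (target n j).2 := by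
      intro j
      by_cases c0 : (j : ℕ) = 0
      · simp [node, target, wv, c0, g0]
      by_cases c1 : (j : ℕ) = 1
      · have hj : j = ⟨1, by omega⟩ := Fin.ext c1
        have hx := hυ ⟨1, by omega⟩
        rw [hj]
        have en : node n ⟨1, by omega⟩ = 1 / 2 := by simp [node]
        have et : target n ⟨1, by omega⟩ = (3 / 5, 0) := by simp [target]
        rw [en, et, gp]
        generalize υ (lam ⟨1, by omega⟩) = x at hx ⊢
        have hd1 : (10 - 3 * x : ℂ) ≠ 0 := by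
          intro h
          have h3 : ‖(3 : ℂ) * x‖ = 10 := by
            rw [show (3 : ℂ) * x = 10 by linear_combination -h]; simp
          rw [norm_mul] at h3
          have h4 : ‖(3 : ℂ)‖ = 3 := by simp
          rw [h4] at h3
          linarith
        have hd2 : (2 - x * (3 / 5) : ℂ) ≠ 0 := by
          intro h
          apply hd1
          linear_combination 5 * h
        show (-3 : ℂ) / (10 - 3 * x) = (2 * x * 0 - 3 / 5) / (2 - x * (3 / 5))
        rw [div_eq_div_iff hd1 hd2]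
        ring
      by_cases c2 : (j : ℕ) = 2
      · have hj : j = ⟨2, by omega⟩ := Fin.ext c2
        have hx := hυ ⟨2, by omega⟩
        rw [hj]
        have en : node n ⟨2, by omega⟩ = -(1 / 2) := by simp [node]
        have et : target n ⟨2, by omega⟩ = (-(3 / 5), 0) := by simp [target]
        rw [en, et, gn]
        generalize υ (lam ⟨2, by omega⟩) = x at hx ⊢
        have hd1 : (10 - 3 * -x : ℂ) ≠ 0 := by
          intro h
          have h3 : ‖(3 : ℂ) * x‖ = 10 := by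
            rw [show (3 : ℂ) * x = -10 by linear_combination h]; simp
          rw [norm_mul] at h3
          have h4 : ‖(3 : ℂ)‖ = 3 := by simp
          rw [h4] at h3
          linarith
        have hd2 : (2 - x * -(3 / 5) : ℂ) ≠ 0 := by
          intro h
          apply hd1
          linear_combination 5 * h
        show (3 : ℂ) / (10 - 3 * -x) = (2 * x * 0 - -(3 / 5)) / (2 - x * -(3 / 5))
        rw [div_eq_div_iff hd1 hd2]
        ring
      · have en : node n j = (mu n j : ℂ) := by simp [node, c0, c1, c2]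
        have et : target n j = (0, 0) := by simp [target, c1, c2]
        rw [en, et, gm j]
        simp [wv]
    set E : ℝ := (10 + 2 / τ) * δ with hE
    have hclose : ∀ j, ‖wv (υ (lam j)) (z j).1 (z j).2 - g (lam j)‖ ≤ E := by
      intro j
      have h1 : ‖wv (υ (lam j)) (z j).1 (z j).2 -
          wv (υ (lam j)) (target n j).1 (target n j).2‖ ≤ 10 * δ :=
        wv_close (hυ j) ((htar1 j).trans (by norm_num)) ((hs1 j).trans (by norm_num))
          (by rw [htar2]; simp) (hs j) (hp j)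
      rw [← hbase] at h1
      have h2 : ‖g (lam j) - g (node n j)‖ ≤ 2 * (99 / 100) / τ * ‖lam j - node n j‖ :=
        lip dg ng hτ0 (by linarith [hτ1 j]) ((hl j).trans_lt (by linarith))
      have h3 : 2 * (99 / 100) / τ * ‖lam j - node n j‖ ≤ 2 / τ * δ := by
        have := hl j
        gcongr
        norm_num
      have h4 : wv (υ (lam j)) (z j).1 (z j).2 - g (lam j) =
          (wv (υ (lam j)) (z j).1 (z j).2 - g (node n j)) - (g (lam j) - g (node n j)) := by ring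
      rw [h4]
      refine (norm_sub_le _ _).trans ?_
      rw [hE]
      linarith
    obtain ⟨h, dh, hval, hbd⟩ := correct lam
      (fun j => wv (υ (lam j)) (z j).1 (z j).2 - g (lam j)) hτ0 hτle hin hsep hclose
    refine ⟨fun x => g x + h x, dg.add dh.differentiableOn, fun x hx => ?_, fun j => ?_⟩
    · refine (norm_add_le _ _).trans ?_
      have h1 := ng x hx
      have h2 := hbd x hx
      have h3 : (n : ℝ) * (E * (1 / τ) ^ n) = K * δ := by
        rw [hE, hK]; ring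
      rw [h3] at h2
      linarith
    · show g (lam j) + h (lam j) = _
      rw [hval j]
      show g (lam j) + (wv (υ (lam j)) (z j).1 (z j).2 - g (lam j)) =
        (2 * υ (lam j) * (z j).2 - (z j).1) / (2 - υ (lam j) * (z j).1)
      rw [wv]
      ring

/-- Data close to the expanded base data are not solvable. -/
theorem near_unsolvable (n : ℕ) (hn : 3 ≤ n) (r : ℝ) (hr0 : 0 < r) (hr1 : r < 1) :
    ∃ δ : ℝ, 0 < δ ∧ ∀ (lam : Fin n → ℂ) (z : Fin n → ℂ × ℂ), (∀ j, ‖lam j - node n j‖ ≤ δ) →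
      (∀ j, ‖r * (z j).1 - (target n j).1‖ ≤ δ) → (∀ j, ‖(z j).2‖ ≤ δ) →
      (∀ j, ‖lam j‖ < 1) → ¬ GamSolvable lam z := by
  set η : ℝ := (1 - r) ^ 2 / 4 with hη
  have hη0 : 0 < η := by
    have : 0 < 1 - r := by linarith
    positivity
  set δ : ℝ := min (η / 200) (1 / 4) with hδ
  have hδ0 : 0 < δ := lt_min (by positivity) (by norm_num)
  have hδη : δ ≤ η / 200 := min_le_left _ _
  have hδ4 : δ ≤ 1 / 4 := min_le_right _ _
  refine ⟨δ, hδ0, ?_⟩
  rintro lam z hl hs hp hin ⟨f, df, hf, hfz⟩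
  have hb1 : ∀ x ∈ ball (0 : ℂ) 1, ‖(f x).1‖ ≤ 2 := fun x hx => by
    have := hf x hx
    exact (gam_bound (s := (f x).1) (p := (f x).2) this).1
  have hb2 : ∀ x ∈ ball (0 : ℂ) 1, ‖(f x).2‖ ≤ 2 := fun x hx => by
    have := hf x hx
    exact (gam_bound (s := (f x).1) (p := (f x).2) this).2
  -- values at the base nodes
  have hval : ∀ j : Fin n, ‖node n j‖ ≤ 1 / 2 →
      ‖(target n j).1 - r * (f (node n j)).1‖ ≤ 9 * δ ∧ ‖r ^ 2 * (f (node n j)).2‖ ≤ 9 * δ := by
    intro j hj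
    have h1 : ‖(f (lam j)).1 - (f (node n j)).1‖ ≤ 2 * 2 / (1 / 2) * ‖lam j - node n j‖ :=
      lip (f := fun x => (f x).1) df.fst hb1 (by norm_num) (by linarith)
        ((hl j).trans_lt (by linarith))
    have h2 : ‖(f (lam j)).2 - (f (node n j)).2‖ ≤ 2 * 2 / (1 / 2) * ‖lam j - node n j‖ :=
      lip (f := fun x => (f x).2) df.snd hb2 (by norm_num) (by linarith)
        ((hl j).trans_lt (by linarith))
    rw [hfz j] at h1 h2
    have h3 := hl j
    have hrn : ‖(r : ℂ)‖ = r := by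
      rw [Complex.norm_real, Real.norm_eq_abs, abs_of_pos hr0]
    constructor
    · have e : (target n j).1 - r * (f (node n j)).1 =
          -(r * (z j).1 - (target n j).1) + r * ((z j).1 - (f (node n j)).1) := by ring
      rw [e]
      refine (norm_add_le _ _).trans ?_
      rw [norm_neg, norm_mul, hrn]
      have h4 := hs j
      have h5 : r * ‖(z j).1 - (f (node n j)).1‖ ≤ 1 * (8 * δ) :=
        mul_le_mul hr1.le (by linarith) (norm_nonneg _) zero_le_one
      linarith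
    · have e : (f (node n j)).2 = (z j).2 - ((z j).2 - (f (node n j)).2) := by ring
      rw [norm_mul, norm_pow, hrn]
      have h4 : ‖(f (node n j)).2‖ ≤ 9 * δ := by
        rw [e]
        refine (norm_sub_le _ _).trans ?_
        linarith [hp j]
      have h5 : r ^ 2 ≤ 1 := pow_le_one₀ hr0.le hr1.le
      have h6 := mul_le_mul h5 h4 (norm_nonneg _) zero_le_one
      linarith
  have en0 : node n ⟨0, by omega⟩ = 0 := by simp [node]
  have en1 : node n ⟨1, by omega⟩ = 1 / 2 := by simp [node]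
  have en2 : node n ⟨2, by omega⟩ = -(1 / 2) := by simp [node]
  have et0 : target n ⟨0, by omega⟩ = (0, 0) := by simp [target]
  have et1 : target n ⟨1, by omega⟩ = (3 / 5, 0) := by simp [target]
  have et2 : target n ⟨2, by omega⟩ = (-(3 / 5), 0) := by simp [target]
  have v0 := hval ⟨0, by omega⟩ (by rw [en0]; simp)
  have v1 := hval ⟨1, by omega⟩ (by rw [en1]; norm_num)
  have v2 := hval ⟨2, by omega⟩ (by rw [en2, norm_neg]; norm_num)
  rw [en0, et0] at v0
  rw [en1, et1] at v1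
  rw [en2, et2] at v2
  obtain ⟨a0, ha0⟩ : ∃ a : ℂ, a = 0 - r * (f 0).1 := ⟨_, rfl⟩
  obtain ⟨a1, ha1⟩ : ∃ a : ℂ, a = 3 / 5 - r * (f (1 / 2)).1 := ⟨_, rfl⟩
  obtain ⟨a2, ha2⟩ : ∃ a : ℂ, a = -(3 / 5) - r * (f (-(1 / 2))).1 := ⟨_, rfl⟩
  obtain ⟨b0, hb0⟩ : ∃ a : ℂ, a = -(r ^ 2 * (f 0).2) := ⟨_, rfl⟩
  obtain ⟨b1, hb1'⟩ : ∃ a : ℂ, a = -(r ^ 2 * (f (1 / 2)).2) := ⟨_, rfl⟩
  obtain ⟨b2, hb2'⟩ : ∃ a : ℂ, a = -(r ^ 2 * (f (-(1 / 2))).2) := ⟨_, rfl⟩
  have na0 : ‖a0‖ ≤ 9 * δ := by rw [ha0]; exact v0.1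
  have na1 : ‖a1‖ ≤ 9 * δ := by rw [ha1]; exact v1.1
  have na2 : ‖a2‖ ≤ 9 * δ := by rw [ha2]; exact v2.1
  have nb0 : ‖b0‖ ≤ 9 * δ := by rw [hb0, norm_neg]; exact v0.2
  have nb1 : ‖b1‖ ≤ 9 * δ := by rw [hb1', norm_neg]; exact v1.2
  have nb2 : ‖b2‖ ≤ 9 * δ := by rw [hb2', norm_neg]; exact v2.2
  have hcorr : ∀ c0 c1 c2 : ℂ, ‖c0‖ ≤ 9 * δ → ‖c1‖ ≤ 9 * δ → ‖c2‖ ≤ 9 * δ →
      ∀ x ∈ ball (0 : ℂ) 1,
      ‖c0 * (1 - 4 * x ^ 2) + c1 * (x * (1 + 2 * x)) + c2 * (x * (2 * x - 1))‖ ≤ η := by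
    intro c0 c1 c2 h0 h1 h2 x hx
    have hx1 : ‖x‖ ≤ 1 := le_of_lt (by simpa using hx)
    have t2 : ‖(2 : ℂ)‖ = 2 := by simp
    have t4 : ‖(4 : ℂ)‖ = 4 := by simp
    have hxx : ‖x‖ ^ 2 ≤ 1 := pow_le_one₀ (norm_nonneg _) hx1
    have m0 : ‖1 - 4 * x ^ 2‖ ≤ 5 := by
      refine (norm_sub_le _ _).trans ?_
      rw [norm_one, norm_mul, norm_pow, t4]
      linarith
    have m1 : ‖x * (1 + 2 * x)‖ ≤ 3 := by
      rw [norm_mul]
      have : ‖1 + 2 * x‖ ≤ 3 := by
        refine (norm_add_le _ _).trans ?_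
        rw [norm_one, norm_mul, t2]
        linarith
      have := mul_le_mul hx1 this (norm_nonneg _) zero_le_one
      linarith
    have m2 : ‖x * (2 * x - 1)‖ ≤ 3 := by
      rw [norm_mul]
      have : ‖2 * x - 1‖ ≤ 3 := by
        refine (norm_sub_le _ _).trans ?_
        rw [norm_one, norm_mul, t2]
        linarith
      have := mul_le_mul hx1 this (norm_nonneg _) zero_le_one
      linarith
    have k0 : ‖c0 * (1 - 4 * x ^ 2)‖ ≤ 9 * δ * 5 := by
      rw [norm_mul]; exact mul_le_mul h0 m0 (norm_nonneg _) (by positivity)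
    have k1 : ‖c1 * (x * (1 + 2 * x))‖ ≤ 9 * δ * 3 := by
      rw [norm_mul]; exact mul_le_mul h1 m1 (norm_nonneg _) (by positivity)
    have k2 : ‖c2 * (x * (2 * x - 1))‖ ≤ 9 * δ * 3 := by
      rw [norm_mul]; exact mul_le_mul h2 m2 (norm_nonneg _) (by positivity)
    have l1 := norm_add_le (c0 * (1 - 4 * x ^ 2) + c1 * (x * (1 + 2 * x)))
      (c2 * (x * (2 * x - 1)))
    have l2 := norm_add_le (c0 * (1 - 4 * x ^ 2)) (c1 * (x * (1 + 2 * x)))
    linarith
  refine noInterp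
    (fun x => r * (f x).1 + (a0 * (1 - 4 * x ^ 2) + a1 * (x * (1 + 2 * x)) +
      a2 * (x * (2 * x - 1))))
    (fun x => r ^ 2 * (f x).2 + (b0 * (1 - 4 * x ^ 2) + b1 * (x * (1 + 2 * x)) +
      b2 * (x * (2 * x - 1)))) ?_ ?_ ?_ ?_ ?_ ?_ ?_ ?_ ?_
  · refine (df.fst.const_mul _).add (Differentiable.differentiableOn ?_)
    fun_prop
  · refine (df.snd.const_mul _).add (Differentiable.differentiableOn ?_)
    fun_prop
  · intro x hx
    have h1 : ((f x).1, (f x).2) ∈ Gam := hf x hx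
    obtain ⟨a, b, ha, hb, hab⟩ := gam_shrink hr0 hr1 h1 (hcorr a0 a1 a2 na0 na1 na2 x hx)
      (hcorr b0 b1 b2 nb0 nb1 nb2 x hx)
    rw [Prod.mk.injEq] at hab
    exact ⟨a, b, ha, hb, hab.1, hab.2⟩
  · show r * (f 0).1 + (a0 * (1 - 4 * 0 ^ 2) + a1 * (0 * (1 + 2 * 0)) +
      a2 * (0 * (2 * 0 - 1))) = 0
    rw [ha0]; ring
  · show r ^ 2 * (f 0).2 + (b0 * (1 - 4 * 0 ^ 2) + b1 * (0 * (1 + 2 * 0)) +
      b2 * (0 * (2 * 0 - 1))) = 0
    rw [hb0]; ring
  · show r * (f (1 / 2)).1 + (a0 * (1 - 4 * (1 / 2) ^ 2) + a1 * (1 / 2 * (1 + 2 * (1 / 2))) +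
      a2 * (1 / 2 * (2 * (1 / 2) - 1))) = 3 / 5
    rw [ha1]; ring
  · show r ^ 2 * (f (1 / 2)).2 + (b0 * (1 - 4 * (1 / 2) ^ 2) +
      b1 * (1 / 2 * (1 + 2 * (1 / 2))) + b2 * (1 / 2 * (2 * (1 / 2) - 1))) = 0
    rw [hb1']; ring
  · show r * (f (-(1 / 2))).1 + (a0 * (1 - 4 * (-(1 / 2)) ^ 2) +
      a1 * (-(1 / 2) * (1 + 2 * -(1 / 2))) + a2 * (-(1 / 2) * (2 * -(1 / 2) - 1))) = -(3 / 5)
    rw [ha2]; ring
  · show r ^ 2 * (f (-(1 / 2))).2 + (b0 * (1 - 4 * (-(1 / 2)) ^ 2) +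
      b1 * (-(1 / 2) * (1 + 2 * -(1 / 2))) + b2 * (-(1 / 2) * (2 * -(1 / 2) - 1))) = 0
    rw [hb2']; ring

end Pool.Agent.Y958.GI
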